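import Pool.Agent.Q233.BN.Fin

/-!
# No absolutely continuous spectrum behind infinitely many bottlenecks

`T` is a bounded operator with real symmetric matrix on `ℓ²(ι)`, `ι` countable (for example the
Laplacian of a graph). A door of a set `B` of sites is a site of `B` which `T` joins to a site outside
`B`. Suppose that there are finite sets `B 0, B 1, …` with at most `m` doors each, such that every
site belongs to `B k` and is not a door of `B k` for all large `k`. Then, whatever the energy and the
disorder, i.i.d. potentials of a nondegenerate law of bounded support, for example the Bernoulli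
potential, destroy the absolutely continuous spectrum: almost surely all spectral measures of
`T + a ω` are singular. The amplitudes `a` have to be bounded from below only at the doors; they may
vanish at all other sites. Nothing is assumed on the sets between the doors.

The second part is the Anderson Bernoulli model of the problem, restricted with the Dirichlet
condition to any set `S ⊆ ℤ^(d+1)` which has at most `m` points on infinitely many of the spheres
`‖x‖_∞ = n`: a lattice with infinitely many walls, each with boundedly many holes, at arbitrary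
distances from each other.

Proof: the boundary values `G(o, x; E + i0)` tend to zero in probability as `x → ∞` in the set
where `a` is bounded from below, since resampling the potential at `x` changes `G(o, o)` by
`τ G(o, x)² / (1 + τ G(x, x))`, since a function of the potential hardly depends on a far
coordinate, and since the matrix entries of the resolvent are tight, uniformly in the operator. The
imaginary part of `G(o, o)` is the flux through the doors, which is at most
`∑ |G(o, x)| |(T 1_{Bᶜ} G)(x, o)|`.
-/

set_option autoImplicit false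

open MeasureTheory Filter

namespace Pool.Agent.Results.MP_d0f69c_mp.Bottlenecks

/-- the Hilbert space `ℓ²(ι)` -/
abbrev L2 (ι : Type) : Type := lp (fun _ : ι => ℂ) 2

/-- the bounded operators on `ℓ²(ι)` -/
abbrev Op (ι : Type) : Type := L2 ι →L[ℂ] L2 ι

/-- the matrix entry `T(x, y)`: the value at `x` of `T` applied to the unit vector at `y` -/
noncomputable def entry {ι : Type} [DecidableEq ι] (T : Op ι) (x y : ι) : ℂ :=
  (T (lp.single 2 y (1 : ℂ))) x

/-- the matrix of `T` is real and symmetric -/
def RealSymmetric {ι : Type} [DecidableEq ι] (T : Op ι) : Prop :=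
  ∀ x y, (entry T x y).im = 0 ∧ entry T x y = entry T y x

/-- the doors of `B`: the sites of `B` which `T` joins to a site outside `B` -/
def doors {ι : Type} [DecidableEq ι] (T : Op ι) (B : Set ι) : Set ι :=
  {x | x ∈ B ∧ ∃ y, y ∉ B ∧ entry T x y ≠ 0}

/-- The finite sets `B 0, B 1, …` have at most `m` doors each, and every site belongs to `B k` and is
no door of `B k` for all large `k`. -/
def IsBottleneck {ι : Type} [DecidableEq ι] (T : Op ι) (B : ℕ → Set ι) (m : ℕ) : Prop :=
  (∀ k, (B k).Finite ∧ (doors T (B k)).encard ≤ m) ∧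
    ∀ x, ∀ᶠ k in atTop, x ∈ B k ∧ x ∉ doors T (B k)

/-- `ν` has bounded support and is not a point mass -/
def IsNoise (ν : Measure ℝ) : Prop :=
  (∃ K : ℝ, ν (Set.Icc (-K) K)ᶜ = 0) ∧ ∀ r : ℝ, ν {r} ≠ 1

/-- `H` is the operator `T + a ω` -/
def IsPerturbed {ι : Type} (T : Op ι) (a ω : ι → ℝ) (H : Op ι) : Prop :=
  ∀ (u : L2 ι) (x : ι), (H u) x = (T u) x + ((a x * ω x : ℝ) : ℂ) * u x

/-- all spectral measures of `H` are singular with respect to the Lebesgue measure -/
def PurelySingular {F : Type*} [NormedAddCommGroup F] [InnerProductSpace ℂ F]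
    (H : F →L[ℂ] F) : Prop :=
  ∀ (ψ : F) (μ : Measure ℝ), IsFiniteMeasure μ →
    (∀ z : ℂ, z.im ≠ 0 → (∫ x, ((x : ℂ) - z)⁻¹ ∂μ) =
      inner ℂ ψ (Ring.inverse (H - z • (1 : F →L[ℂ] F)) ψ)) →
    μ ⟂ₘ (volume : Measure ℝ)

/-- the lattice `ℤ^(d+1)` -/
abbrev Lat (d : ℕ) : Type := Fin (d + 1) → ℤ

/-- extension by zero of a function on `S` to the lattice -/
noncomputable def ext {d : ℕ} {S : Set (Lat d)} (u : S → ℂ) (x : Lat d) : ℂ :=
  open Classical in if h : x ∈ S then u ⟨x, h⟩ else 0

/-- the discrete Laplacian -/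
def lap {d : ℕ} (g : Lat d → ℂ) (x : Lat d) : ℂ :=
  ∑ i : Fin (d + 1), ((g (x + Pi.single i (1 : ℤ)) - g x) + (g (x - Pi.single i (1 : ℤ)) - g x))

/-- `H` is the operator `-(discrete Laplacian) + ω` on `ℓ²(S)` with the Dirichlet condition
outside `S` -/
def IsAnderson {d : ℕ} (S : Set (Lat d)) (ω : S → ℝ) (H : Op S) : Prop :=
  ∀ (u : L2 S) (x : S), (H u) x = -lap (ext u) x + (ω x : ℂ) * ext u x

/-- the sup norm -/
def supNorm {d : ℕ} (x : Lat d) : ℕ := Finset.univ.sup fun i => (x i).natAbs

/-- **Theorem.** -/
theorem result (ν : Measure ℝ) [IsProbabilityMeasure ν] (hν : IsNoise ν) :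
    (∀ (ι : Type) [Countable ι] [DecidableEq ι] (T : Op ι) (B : ℕ → Set ι) (m : ℕ) (a : ι → ℝ)
      (a₀ : ℝ), RealSymmetric T → IsBottleneck T B m → (∀ x, |a x| ≤ 1) → 0 < a₀ →
      (∀ k, ∀ x ∈ doors T (B k), a₀ ≤ |a x|) →
      ∀ᵐ ω ∂(Measure.infinitePi fun _ : ι => ν),
        ∀ H : Op ι, IsPerturbed T a ω H → PurelySingular H) ∧
    (∀ (d m : ℕ) (S : Set (Lat d)),
      (∃ᶠ n : ℕ in atTop, {x : Lat d | x ∈ S ∧ supNorm x = n}.encard ≤ m) →
      ∀ᵐ ω ∂(Measure.infinitePi fun _ : S => ν),
        ∀ H : Op S, IsAnderson S ω H → PurelySingular H) := by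
  obtain ⟨⟨K, hK⟩, hν⟩ := hν
  refine ⟨?_, ?_⟩
  · intro ι _ _ T B m a a₀ hT hB ha ha0 hda
    exact Pool.Agent.Q233.BN.part1 T hT B (fun k => (hB.1 k).1) m (fun k => (hB.1 k).2) hB.2 a ha
      ha0 hda ν K hK hν
  · intro d m S hS
    exact Pool.Agent.Q233.BN.part2 m hS ν K hK hν

end Pool.Agent.Results.MP_d0f69c_mp.Bottlenecks
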