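import Pool.Agent.Q291.SB.Fin2

/-!
# The Anderson model on the lattice with hopping which decays in all directions but one

Let `f` be a nonnegative summable function on the integers. Suppose that the hopping in the
direction `i` at the site `x` is at most `C` times the product of `f (x j)` over the coordinates `j`
behind `i`. There is no condition on the hopping in the last direction except that it is bounded.
For example, in dimension two, the hopping along all vertical lines has full strength, and the
hopping in the horizontal direction decays like `|x₂|⁻ᵝ` with `β > 1`; for `β = 0` this is the model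
of the problem. Another example is the comb. We prove that, whatever the energy and the disorder,
i.i.d. potentials of any nondegenerate law of bounded support, for example the Bernoulli potential,
destroy the absolutely continuous spectrum: almost surely all spectral measures are singular.

The same is true for hopping of long range which moreover decays like `|x - y|⁻ᵅ` with
`α > 1 + D / 2` in dimension `D`. In dimension one nothing else is assumed, so that the hopping
`|x - y|⁻ᵅ`, `α > 3 / 2`, is allowed.

Proof: Let `w` be any positive function on the lattice which tends to zero at infinity, however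
slowly. We choose a box whose sides are large, one after the other. The imaginary part of the Green
function `G(o, o; E + i0)` is a flux through the boundary of the box, to which each site `x` of the
box contributes `|G(o, x)|` times a tight random variable times the leak of `x`, that is, the norm of
the row of the hopping from `x` to the outside. The total of the numbers `min (w x) (leak x)` is as
small as we like. The sites with a small leak are controlled by a bound of weak type for the square
functions of the boundary values of the resolvent. The sites with a small weight `w x` are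
controlled since `G(o, x)` tends to zero in probability, as resampling of the potential at `x` shows;
`w` is chosen according to the speed of this convergence, of which nothing else is known.
-/

set_option autoImplicit false

open MeasureTheory Filter

namespace Pool.Agent.Results.MP_d0f69c_mp.DecayingHopping

/-- the Hilbert space `ℓ²(ι)` -/
abbrev L2 (ι : Type) : Type := lp (fun _ : ι => ℂ) 2

/-- the bounded operators on `ℓ²(ι)` -/
abbrev Op (ι : Type) : Type := L2 ι →L[ℂ] L2 ι

/-- the matrix entry `T(x, y)`: the value at `x` of `T` applied to the unit vector at `y` -/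
noncomputable def entry {ι : Type} [DecidableEq ι] (T : Op ι) (x y : ι) : ℂ :=
  (T (lp.single 2 y (1 : ℂ))) x

/-- the matrix of `T` is real and symmetric -/
def RealSymmetric {ι : Type} [DecidableEq ι] (T : Op ι) : Prop :=
  ∀ x y, (entry T x y).im = 0 ∧ entry T x y = entry T y x

/-- `ν` has bounded support and is not a point mass -/
def IsNoise (ν : Measure ℝ) : Prop :=
  (∃ K : ℝ, ν (Set.Icc (-K) K)ᶜ = 0) ∧ ∀ r : ℝ, ν {r} ≠ 1

/-- all spectral measures of `H` are singular with respect to the Lebesgue measure -/
def PurelySingular {F : Type*} [NormedAddCommGroup F] [InnerProductSpace ℂ F]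
    (H : F →L[ℂ] F) : Prop :=
  ∀ (ψ : F) (μ : Measure ℝ), IsFiniteMeasure μ →
    (∀ z : ℂ, z.im ≠ 0 → (∫ x, ((x : ℂ) - z)⁻¹ ∂μ) =
      inner ℂ ψ (Ring.inverse (H - z • (1 : F →L[ℂ] F)) ψ)) →
    μ ⟂ₘ (volume : Measure ℝ)

/-- the lattice `ℤ^(d+1)`, with the maximum norm -/
abbrev Lat (d : ℕ) : Type := Fin (d + 1) → ℤ

/-- the product of `f (x j)` over the coordinates `j` behind `i` -/
def tail {d : ℕ} (f : ℤ → ℝ) (i : Fin (d + 1)) (x : Lat d) : ℝ :=
  ∏ j ∈ Finset.univ.filter (fun j => i < j), f (x j)

/-- The hopping from `x` to `y` is at most `C (1 + |x - y|)⁻ᵅ` times the product of `f (x j)` over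
all coordinates behind the first coordinate in which `x` and `y` differ. -/
def HasDecay {d : ℕ} (f : ℤ → ℝ) (C α : ℝ) (T : Op (Lat d)) : Prop :=
  ∀ (i : Fin (d + 1)) (x y : Lat d), (∀ j, j < i → x j = y j) → x i ≠ y i →
    ‖entry T x y‖ ≤ C * (1 + ‖x - y‖) ^ (-α) * tail f i x

/-- `H` is the operator `T + ω` -/
def IsPerturbed {ι : Type} (T : Op ι) (ω : ι → ℝ) (H : Op ι) : Prop :=
  ∀ (u : L2 ι) (x : ι), (H u) x = (T u) x + (ω x : ℂ) * u x

/-- the discrete Laplacian with the weight `c i x` at the edge from `x` to `x + e_i` -/
def wlap {d : ℕ} (c : Fin (d + 1) → Lat d → ℝ) (g : Lat d → ℂ) (x : Lat d) : ℂ :=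
  ∑ i : Fin (d + 1), ((c i x : ℂ) * (g (x + Pi.single i (1 : ℤ)) - g x) +
    (c i (x - Pi.single i (1 : ℤ)) : ℂ) * (g (x - Pi.single i (1 : ℤ)) - g x))

/-- `H` is the operator `-(weighted discrete Laplacian) + ω` on `ℓ²(ℤ^(d+1))` -/
def IsWeighted {d : ℕ} (c : Fin (d + 1) → Lat d → ℝ) (ω : Lat d → ℝ) (H : Op (Lat d)) : Prop :=
  ∀ (u : L2 (Lat d)) (x : Lat d), (H u) x = -wlap c (fun y => u y) x + (ω x : ℂ) * u x

/-- **Theorem.** -/
theorem result (ν : Measure ℝ) [IsProbabilityMeasure ν] (hν : IsNoise ν) (d : ℕ) (f : ℤ → ℝ)
    (C : ℝ) (hf0 : ∀ p, 0 ≤ f p) (hf : Summable f) :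
    (∀ (α : ℝ) (T : Op (Lat d)), 1 + ((d : ℝ) + 1) / 2 < α → RealSymmetric T →
      HasDecay f C α T →
      ∀ᵐ ω ∂(Measure.infinitePi fun _ : Lat d => ν),
        ∀ H : Op (Lat d), IsPerturbed T ω H → PurelySingular H) ∧
    (∀ c : Fin (d + 1) → Lat d → ℝ, (∀ i x, |c i x| ≤ C * tail f i x) →
      ∀ᵐ ω ∂(Measure.infinitePi fun _ : Lat d => ν),
        ∀ H : Op (Lat d), IsWeighted c ω H → PurelySingular H) := by
  obtain ⟨⟨K, hK⟩, hν⟩ := hν
  refine ⟨fun α T hα hT hdec => ?_, fun c hc => ?_⟩
  · exact Pool.Agent.Q291.SB.part_lattice f C α T hf0 hf hα hT hdec ν K hK hν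
  · exact Pool.Agent.Q291.SB.part_weighted f C c hf0 hf hc ν K hK hν

end Pool.Agent.Results.MP_d0f69c_mp.DecayingHopping
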