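import Pool.Agent.Q218.HB.Loc3

/-!
# The bulk of the spectrum of the Anderson model in high dimension, in finite and infinite volume

The operator `H = -Δ + ω` on `ℤ^d` with independent centered `ω_x`, `E |ω_x|^p ≤ (M d^α)^p` (fair signs: `M = 1`,
`α = 0`, all `p`; Gaussian variables too); the disorder is fixed or grows with the dimension, `2 (α + 1/p) < 1/2`.
Almost surely, for all large boxes, almost all eigenfunctions, in the whole spectrum and in every window of energies
of width `d^(-1/2 + 2 m + ε)`, `m = α + 1/p`, in the bulk, are spread over distances `d^(1/2 - 2 m - 2 ε)` in every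
direction (up to the exponents the mean free path) and their Fourier transforms are concentrated on the energy
shell of the free operator; this holds for all operators on the box which differ from the periodic one by a matrix
of rank at most `n^d / d` (all boundary conditions) and for the eigenfunctions of `H` on `ℤ^d` itself.

Idea of the proof. With `G₀ = (-Δ - z)⁻¹`, `G = (H - z)⁻¹`, `Im z = η`, and the potential truncated at the height
`d^m`, the Hilbert-Schmidt norm of `G - G₀` is estimated by a self-consistent inequality for the random variables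
`‖G(z) δ_x‖`, going down in `η` by steps `d^(-ε/4)`: `Im G₀(x,x)` is `O(d^(-1/2))` uniformly in the energy (Bessel
functions), so one collision costs `d^(2 m - 1/2) / η`. The norm is concentrated around its mean (a martingale
estimate), which gives all energies at once and, by the Borel-Cantelli lemma, almost all `ω`; the truncated sites
and the boundary conditions are perturbations of small rank. The free resolvent spreads over the distance `1/η` in
every direction (a commutator estimate) and all statements follow for almost all eigenfunctions by Bessel's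
inequality.

Parts of the proof: helpers 65, 68, 121, 123, 124, 129, 130, 149, 150, 153, 164, 181, 182, 184, 190, 195, 198, 213,
220, 224, 238, 252, 265, 277, 285.
-/

set_option autoImplicit false

open MeasureTheory Filter

namespace Pool.Agent.Results.MP_d0f69c_mp.HighDimensionAllLaws

/-- `(H u)(x) = -∑_{|y - x| = 1} (u(y) - u(x)) + ω_x u(x)` on `ℤ^d` -/
noncomputable def H {d : ℕ} (ω : (Fin d → ℤ) → ℝ) (u : (Fin d → ℤ) → ℂ) (x : Fin d → ℤ) : ℂ :=
  -∑ i : Fin d, ((u (x + Pi.single i 1) - u x) + (u (x - Pi.single i 1) - u x)) + (ω x : ℂ) * u x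

/-- the box `{0, ..., n-1}^d`, its opposite faces glued -/
abbrev Torus (d n : ℕ) : Type := Fin d → ZMod n

/-- the site of `ℤ^d` -/
def site {d n : ℕ} (x : Torus d n) : Fin d → ℤ := fun i => ((x i).val : ℤ)

/-- the matrix of `H` on the box with periodic boundary conditions -/
noncomputable def periodic {d n : ℕ} (ω : (Fin d → ℤ) → ℝ) : Matrix (Torus d n) (Torus d n) ℂ := fun x y =>
  -∑ i : Fin d, ((if y = x + Pi.single i 1 then 1 else 0) + (if y = x - Pi.single i 1 then 1 else 0)) +
    if x = y then 2 * (d : ℂ) + (ω (site x) : ℂ) else 0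

/-- `φ` is an orthonormal basis of eigenfunctions of `A`, with the real eigenvalues `e`; its members are
indexed by the `n^d` sites of the box -/
structure IsEigenbasis {d n : ℕ} [NeZero n] (A : Matrix (Torus d n) (Torus d n) ℂ)
    (φ : Torus d n → Torus d n → ℂ) (e : Torus d n → ℝ) : Prop where
  orthonormal : ∀ j k, ∑ x, (starRingEnd ℂ) (φ j x) * φ k x = if j = k then 1 else 0
  eigen : ∀ j x, ∑ y, A x y * φ j y = (e j : ℂ) * φ j x

/-- an orthonormal family in `ℓ²(ℤ^d)`, whose members satisfy the eigenvalue equation of `H` at the interior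
sites of the box `{0, ..., n-1}^d` -/
structure LocalEigenSystem {d : ℕ} (ω : (Fin d → ℤ) → ℝ) (n : ℕ) {J : Type} (ψ : J → (Fin d → ℤ) → ℂ)
    (e : J → ℝ) : Prop where
  eigen : ∀ j x, (∀ i, 0 < x i ∧ x i < (n : ℤ) - 1) → H ω (ψ j) x = (e j : ℂ) * ψ j x
  norm : ∀ j, HasSum (fun x => ‖ψ j x‖ ^ 2) 1
  orth : ∀ i j, i ≠ j → HasSum (fun x => (starRingEnd ℂ) (ψ i x) * ψ j x) 0

/-- the distance on `ℤ/n` -/
def dist1 {n : ℕ} (a b : ZMod n) : ℕ := (a - b).valMinAbs.natAbs

/-- the mass of `u` in every ball `∑_i |x_i - b_i| ≤ d L / 2` is at most `τ` -/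
def Spread {d n : ℕ} [NeZero n] (u : Torus d n → ℂ) (L : ℕ) (τ : ℝ) : Prop :=
  ∀ b : Torus d n, ∑ x with 2 * ∑ i, dist1 (x i) (b i) ≤ d * L, ‖u x‖ ^ 2 ≤ τ

/-- the mass of `u` in every slab `|x_i - b| ≤ L` is at most `τ` -/
def SpreadIn {d n : ℕ} [NeZero n] (u : Torus d n → ℂ) (i : Fin d) (L : ℕ) (τ : ℝ) : Prop :=
  ∀ b : ZMod n, ∑ x with dist1 (x i) b ≤ L, ‖u x‖ ^ 2 ≤ τ

/-- the unitary Fourier transform `n^(-d/2) ∑_x exp(-2 π i k·x/n) u(x)` -/
noncomputable def fourier {d n : ℕ} [NeZero n] (u : Torus d n → ℂ) (k : Torus d n) : ℂ :=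
  ((Real.sqrt ((n : ℝ) ^ d))⁻¹ : ℝ) * ∑ x : Torus d n,
    Complex.exp (-(2 * Real.pi * (∑ j : Fin d, ((k j).val : ℝ) * ((x j).val : ℝ)) / n : ℝ) * Complex.I) * u x

/-- the symbol of `-Δ` -/
noncomputable def symbol {d n : ℕ} (k : Torus d n) : ℝ :=
  ∑ j : Fin d, (2 - 2 * Real.cos (2 * Real.pi * ((k j).val : ℝ) / n))

/-- the mass of the Fourier transform of `u` outside `|e(k) - e| ≤ 5 η` is at most `τ` -/
def OnShell {d n : ℕ} [NeZero n] (u : Torus d n → ℂ) (e η τ : ℝ) : Prop :=
  ∑ k with 5 * η < |symbol k - e|, ‖fourier u k‖ ^ 2 ≤ τ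

open Classical in
/-- all but at most `τ T` of the `u j`, `j ∈ s`, satisfy `Spread` and `OnShell`, and for each
direction `i` all but at most `τ T` of them satisfy `SpreadIn` -/
def Most {d n : ℕ} [NeZero n] {ι : Type} (u : ι → Torus d n → ℂ) (e : ι → ℝ) (η τ : ℝ) (L : ℕ)
    (s : Finset ι) (T : ℝ) : Prop :=
  (((s.filter fun j => ¬ (Spread (u j) L τ ∧ OnShell (u j) (e j) η τ)).card : ℝ) ≤ τ * T) ∧
  ∀ i : Fin d, (((s.filter fun j => ¬ SpreadIn (u j) i L τ).card : ℝ) ≤ τ * T)

/-- the indices of the eigenvalues in `[E - η, E + η]` -/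
noncomputable def window {d n : ℕ} [NeZero n] (e : Torus d n → ℝ) (E η : ℝ) : Finset (Torus d n) :=
  Finset.univ.filter fun j => |e j - E| ≤ η

open Pool.Agent.Q218.HB

theorem per_eq {d n : ℕ} [NeZero n] (ω : (Fin d → ℤ) → ℝ) :
    (periodic ω : Matrix (Torus d n) (Torus d n) ℂ) =
      Hm hop (fun x => 1 * rs n ω x) + (2 * d : ℂ) • (1 : Matrix (Torus d n) (Torus d n) ℂ) := by
  ext x y
  rw [Matrix.add_apply, Matrix.smul_apply, Matrix.one_apply, smul_eq_mul]
  unfold Hm hop periodic rs ev site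
  have h1 : ∀ (p : Prop) [Decidable p], ((if p then (1 : ℝ) else 0 : ℝ) : ℂ) = if p then (1 : ℂ) else 0 :=
    fun p _ => by split_ifs <;> simp
  by_cases hxy : x = y
  · rw [if_pos hxy, if_pos hxy, if_pos hxy]; push_cast; simp only [h1]; ring
  · rw [if_neg hxy, if_neg hxy, if_neg hxy]; push_cast; simp only [h1]; ring

theorem sum_hm {d n : ℕ} [NeZero n] (V : Torus d n → ℝ) (u : Torus d n → ℂ) (x : Torus d n) :
    ∑ y, Hm hop V x y * u y =
      -∑ i : Fin d, (u (x + Pi.single i 1) + u (x - Pi.single i 1)) + (V x : ℂ) * u x := by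
  have h1 : ∀ y, Hm hop V x y * u y = -∑ i : Fin d, ((if y = x + ev i then u y else 0) +
      (if y = x - ev i then u y else 0)) + (if x = y then (V x : ℂ) * u y else 0) := fun y => by
    unfold Hm hop
    rw [add_mul, ite_mul, zero_mul]
    congr 1
    push_cast
    rw [neg_mul, Finset.sum_mul]
    congr 1
    refine Finset.sum_congr rfl fun i _ => ?_
    split_ifs <;> (push_cast; ring)
  rw [Finset.sum_congr rfl fun y _ => h1 y, Finset.sum_add_distrib, Finset.sum_neg_distrib, Finset.sum_comm,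
    Finset.sum_ite_eq]
  simp only [Finset.mem_univ, if_true]
  have h2 : ∀ i : Fin d, ∑ y, ((if y = x + ev i then u y else 0) + (if y = x - ev i then u y else 0)) =
      u (x + Pi.single i 1) + u (x - Pi.single i 1) := fun i => by
    rw [Finset.sum_add_distrib, Finset.sum_ite_eq', Finset.sum_ite_eq']
    simp only [Finset.mem_univ, if_true]
    rfl
  rw [Finset.sum_congr rfl fun i _ => h2 i]

theorem exists_basis {d n : ℕ} [NeZero n] (A : Matrix (Torus d n) (Torus d n) ℂ) (hA : A.IsHermitian) :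
    ∃ (φ : Torus d n → Torus d n → ℂ) (e : Torus d n → ℝ), IsEigenbasis A φ e := by
  refine ⟨fun j => ⇑(hA.eigenvectorBasis j), fun j => hA.eigenvalues j, fun j k => ?_, fun j x => ?_⟩
  · have h1 := orthonormal_iff_ite.1 hA.eigenvectorBasis.orthonormal j k
    rw [PiLp.inner_apply] at h1
    simp only [RCLike.inner_apply] at h1
    rw [← h1]
    exact Finset.sum_congr rfl fun x _ => mul_comm _ _
  · have h1 := congrFun (hA.mulVec_eigenvectorBasis j) x
    rw [Matrix.mulVec, dotProduct] at h1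
    rw [h1]
    simp only [Pi.smul_apply, Complex.real_smul]

/-- the number of the sites of the box at its faces -/
theorem card_face {d n : ℕ} [NeZero n] (i : Fin d) :
    (Finset.univ.filter fun x : Torus d n => (x i).val = 0 ∨ (x i).val = n - 1).card ≤ 2 * n ^ (d - 1) := by
  classical
  obtain ⟨S, hS⟩ : ∃ S : Finset (ZMod n), S = Finset.univ.filter fun a => a.val = 0 ∨ a.val = n - 1 := ⟨_, rfl⟩
  have hS2 : S.card ≤ 2 := by
    have h1 : S.card ≤ ({0, n - 1} : Finset ℕ).card := by
      refine Finset.card_le_card_of_injOn (fun a => a.val) (fun a ha => ?_) (fun a _ b _ h => ZMod.val_injective n h)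
      rw [Finset.mem_coe, hS, Finset.mem_filter] at ha
      simp only [Finset.coe_insert, Finset.coe_singleton, Set.mem_insert_iff, Set.mem_singleton_iff]
      exact ha.2
    exact h1.trans Finset.card_le_two
  have h2 : (Finset.univ.filter fun x : Torus d n => (x i).val = 0 ∨ (x i).val = n - 1) ⊆
      Fintype.piFinset (fun j : Fin d => if j = i then S else Finset.univ) := by
    intro x hx
    rw [Finset.mem_filter] at hx
    rw [Fintype.mem_piFinset]
    intro j
    split_ifs with h
    · rw [hS, Finset.mem_filter, h]; exact ⟨Finset.mem_univ _, hx.2⟩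
    · exact Finset.mem_univ _
  refine (Finset.card_le_card h2).trans ?_
  rw [Fintype.card_piFinset, Finset.prod_eq_mul_prod_sdiff_singleton_of_mem (Finset.mem_univ i), if_pos rfl]
  refine Nat.mul_le_mul hS2 (le_of_eq ?_)
  rw [Finset.prod_congr rfl (g := fun _ => n) (fun j hj => by
    rw [Finset.mem_sdiff, Finset.mem_singleton] at hj
    rw [if_neg hj.2, Finset.card_univ, ZMod.card])]
  rw [Finset.prod_const, Finset.card_sdiff, Finset.card_univ, Fintype.card_fin]
  simp

/-- the number of the sites which are not interior -/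
theorem card_bd {d n : ℕ} [NeZero n] (hd : 1 ≤ d) (hn : 2 * d ^ 2 ≤ n) :
    ((Finset.univ.filter fun x : Torus d n => ¬ ∀ i, 0 < (x i).val ∧ (x i).val < n - 1).card : ℝ) ≤
      (n : ℝ) ^ d / d := by
  classical
  have h2 : (Finset.univ.filter fun x : Torus d n => ¬ ∀ i, 0 < (x i).val ∧ (x i).val < n - 1).card ≤
      d * (2 * n ^ (d - 1)) := by
    have h3 : (Finset.univ.filter fun x : Torus d n => ¬ ∀ i, 0 < (x i).val ∧ (x i).val < n - 1) ⊆
        Finset.univ.biUnion fun i : Fin d => Finset.univ.filter fun x : Torus d n =>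
          (x i).val = 0 ∨ (x i).val = n - 1 := by
      intro x hx
      rw [Finset.mem_filter] at hx
      have h4 := hx.2
      push Not at h4
      obtain ⟨i, hi⟩ := h4
      rw [Finset.mem_biUnion]
      refine ⟨i, Finset.mem_univ _, ?_⟩
      rw [Finset.mem_filter]
      refine ⟨Finset.mem_univ _, ?_⟩
      by_cases h0 : (x i).val = 0
      · exact Or.inl h0
      · right
        have h5 := hi (Nat.pos_of_ne_zero h0)
        have h6 := ZMod.val_lt (x i)
        omega
    refine (Finset.card_le_card h3).trans (Finset.card_biUnion_le.trans ?_)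
    refine (Finset.sum_le_sum fun i _ => card_face i).trans (le_of_eq ?_)
    rw [Finset.sum_const, Finset.card_univ, Fintype.card_fin, smul_eq_mul]
  have hd0 : (0 : ℝ) < d := by exact_mod_cast hd
  have hn0 : (0 : ℝ) < n := by exact_mod_cast Nat.pos_of_ne_zero (NeZero.ne n)
  have hnr : 2 * (d : ℝ) ^ 2 ≤ n := by exact_mod_cast hn
  have h7 : ((Finset.univ.filter fun x : Torus d n => ¬ ∀ i, 0 < (x i).val ∧ (x i).val < n - 1).card : ℝ) ≤
      d * (2 * (n : ℝ) ^ (d - 1)) := by exact_mod_cast h2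
  refine h7.trans ?_
  rw [le_div_iff₀ hd0]
  have h8 : (n : ℝ) ^ d = n * (n : ℝ) ^ (d - 1) := by
    obtain ⟨e, rfl⟩ : ∃ e, d = e + 1 := ⟨d - 1, by omega⟩
    rw [Nat.add_sub_cancel, pow_succ]; ring
  rw [h8]
  have h9 : 0 ≤ (n : ℝ) ^ (d - 1) := by positivity
  nlinarith

theorem rank_le {d n : ℕ} [NeZero n] (B A : Matrix (Torus d n) (Torus d n) ℂ) (hd : 1 ≤ d) (hn : 2 * d ^ 2 ≤ n)
    (h : ∀ x y : Torus d n, (∀ i, 0 < (x i).val ∧ (x i).val < n - 1) → A x y = B x y) :
    ((A - B).rank : ℝ) ≤ (n : ℝ) ^ d / d := by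
  classical
  obtain ⟨w, hw⟩ : ∃ w : Torus d n → ℂ, w = fun x => if ∀ i, 0 < (x i).val ∧ (x i).val < n - 1 then 0 else 1 :=
    ⟨_, rfl⟩
  have h1 : A - B = Matrix.diagonal w * (A - B) := by
    ext x y
    rw [Matrix.diagonal_mul, hw]
    simp only
    split_ifs with hx
    · rw [Matrix.sub_apply, h x y hx, sub_self, mul_zero]
    · rw [one_mul]
  refine le_trans ?_ (card_bd hd hn)
  rw [h1]
  refine Nat.cast_le.2 ((Matrix.rank_mul_le_left _ _).trans ?_)
  rw [Matrix.rank_diagonal, Fintype.card_subtype]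
  refine Finset.card_le_card fun x hx => ?_
  rw [Finset.mem_filter, hw] at hx
  rw [Finset.mem_filter]
  refine ⟨Finset.mem_univ _, fun hh => hx.2 ?_⟩
  simp only
  rw [if_pos hh]

theorem spread_of {d n : ℕ} [NeZero n] {u : Torus d n → ℂ} {L : ℕ} {τ : ℝ} (h : ∀ b, bm u b L ≤ τ) :
    Spread u L τ := fun b => by
  refine le_trans (le_of_eq ?_) (h b)
  rw [Finset.sum_filter]
  exact Finset.sum_congr rfl fun x _ => by
    by_cases hx : 2 * ∑ i, dist1 (x i) (b i) ≤ d * L
    · rw [if_pos hx, Set.indicator_of_mem (show x ∈ {x : Tor d n | 2 * ∑ i, (x i - b i).valMinAbs.natAbs ≤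
        d * L} from hx)]
    · rw [if_neg hx, Set.indicator_of_notMem (show x ∉ {x : Tor d n | 2 * ∑ i, (x i - b i).valMinAbs.natAbs ≤
        d * L} from hx)]

theorem shell_of {d n : ℕ} [NeZero n] {u : Torus d n → ℂ} {e η τ μ : ℝ} (hμ : |μ| ≤ η)
    (h : om u (e - 2 * d - μ) η ≤ τ) : OnShell u e η τ := by
  refine le_trans ?_ h
  rw [Finset.sum_filter]
  refine Finset.sum_le_sum fun k _ => ?_
  by_cases hk : 5 * η < |symbol k - e|
  · have e1 : symbol k - e = (en k - (e - 2 * d - μ)) - μ := by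
      unfold symbol en
      rw [Finset.sum_sub_distrib, Finset.sum_const, Finset.card_univ, Fintype.card_fin, nsmul_eq_mul,
        ← Finset.mul_sum]
      ring
    have hk2 : 4 * η < |en k - (e - 2 * d - μ)| := by
      rw [e1] at hk
      have := abs_sub (en k - (e - 2 * d - μ)) μ
      linarith
    rw [if_pos hk, Set.indicator_of_mem (show k ∈ {k : Tor d n | 4 * η < |en k - (e - 2 * d - μ)|} from hk2)]
    exact le_rfl
  · rw [if_neg hk]
    exact Set.indicator_nonneg (fun _ _ => by positivity) k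

theorem slab_of {d n : ℕ} [NeZero n] {u : Torus d n → ℂ} {i : Fin d} {L : ℕ} {τ : ℝ} (h : ¬ SpreadIn u i L τ) :
    ∃ b, τ < sm u i b L := by
  unfold SpreadIn at h
  push Not at h
  obtain ⟨b, hb⟩ := h
  refine ⟨b, lt_of_lt_of_le hb ?_⟩
  rw [Finset.sum_filter]
  unfold sm
  refine Finset.sum_le_sum fun x _ => ?_
  by_cases hx : dist1 (x i) b ≤ L
  · rw [if_pos hx, Set.indicator_of_mem (show x ∈ {x : Tor d n | x i ∈ slab b L} from mem_slab _ _ _ hx)]
  · rw [if_neg hx]
    exact Set.indicator_nonneg (fun _ _ => by positivity) x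

theorem most_of {d n : ℕ} [NeZero n] {φ : Torus d n → Torus d n → ℂ} {e : Torus d n → ℝ} {η τ μ : ℝ} {L : ℕ}
    {J : Finset (Torus d n)} {T : ℝ} (hμ : |μ| ≤ η) (h : Few φ (fun j => e j - 2 * d - μ) η τ L J T) :
    Most φ e η τ L J T := by
  classical
  obtain ⟨h1, h2⟩ := h
  constructor
  · refine le_trans (Nat.cast_le.2 (Finset.card_le_card fun j hj => ?_)) h1
    rw [Finset.mem_filter] at hj ⊢
    exact ⟨hj.1, fun hh => hj.2 ⟨spread_of hh.1, shell_of hμ hh.2⟩⟩
  · intro i
    refine le_trans (Nat.cast_le.2 (Finset.card_le_card fun j hj => ?_)) (h2 i)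
    rw [Finset.mem_filter] at hj ⊢
    exact ⟨hj.1, slab_of hj.2⟩

theorem most_ofJ {d n : ℕ} [NeZero n] {J : Type} [Fintype J] {u : J → Torus d n → ℂ} {e : J → ℝ} {η τ μ : ℝ}
    {L : ℕ} {T : ℝ} (hμ : |μ| ≤ η) (h : FewJ u (fun j => e j - 2 * d - μ) η τ L T) :
    Most u e η τ L Finset.univ T := by
  classical
  obtain ⟨h1, h2⟩ := h
  constructor
  · refine le_trans (Nat.cast_le.2 (Finset.card_le_card fun j hj => ?_)) h1
    rw [Finset.mem_filter] at hj ⊢
    exact ⟨hj.1, fun hh => hj.2 ⟨spread_of hh.1, shell_of hμ hh.2⟩⟩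
  · intro i
    refine le_trans (Nat.cast_le.2 (Finset.card_le_card fun j hj => ?_)) (h2 i)
    rw [Finset.mem_filter] at hj ⊢
    exact ⟨hj.1, slab_of hj.2⟩

theorem site_add {d n : ℕ} [NeZero n] (hn : 2 ≤ n) (x : Torus d n) (i : Fin d) (h : (x i).val < n - 1) :
    site (x + Pi.single i 1) = site x + Pi.single i 1 := by
  funext j
  unfold site
  rw [Pi.add_apply, Pi.add_apply]
  by_cases hj : j = i
  · subst hj
    rw [Pi.single_eq_same, Pi.single_eq_same]
    have h1 : (1 : ZMod n).val = 1 := ZMod.val_one'' (by omega)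
    rw [ZMod.val_add_of_lt (by rw [h1]; omega), h1]
    push_cast; rfl
  · rw [Pi.single_eq_of_ne hj, Pi.single_eq_of_ne hj, add_zero, add_zero]

theorem site_sub {d n : ℕ} [NeZero n] (hn : 2 ≤ n) (x : Torus d n) (i : Fin d) (h : 0 < (x i).val) :
    site (x - Pi.single i 1) = site x - Pi.single i 1 := by
  funext j
  unfold site
  rw [Pi.sub_apply, Pi.sub_apply]
  by_cases hj : j = i
  · subst hj
    rw [Pi.single_eq_same, Pi.single_eq_same]
    have h1 : (1 : ZMod n).val = 1 := ZMod.val_one'' (by omega)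
    rw [ZMod.val_sub (by rw [h1]; omega), h1]
    push_cast [h]; omega
  · rw [Pi.single_eq_of_ne hj, Pi.single_eq_of_ne hj, sub_zero, sub_zero]

/-- (1) Orthonormal bases of eigenfunctions exist for every Hermitian matrix. (2) Every matrix which agrees with
`H` at the interior sites of the box `{0, ..., n-1}^d`, `n ≥ 2 d²`, differs from `H` with periodic boundary
conditions by a matrix of rank at most `n^d / d`. (3) For `κ > 0` there is `c > 0` such that for all `α ≥ 0`,
`p ≥ 1`, `ε > 0` with `2 m + 3 ε ≤ 1/2`, `m = α + 1/p`, and all `M`, for all large `d` and all laws `ν` of mean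
zero with `∫ |t|^p dν ≤ (M d^α)^p`, with `η = d^(-1/2 + 2 m + ε)`, `τ = d^(-ε/64)` and
`L = ⌊d^(1/2 - 2 m - 2 ε)⌋`: if the `ω_x`, `x ∈ ℤ^d`, are independent with the law `ν` then almost surely, for all
large `n`,
* for all matrices `A` with `rank (A - periodic ω) ≤ n^d / d` and all orthonormal bases of eigenfunctions of `A`,
  `Most` of the `n^d` eigenfunctions are spread and concentrated on the energy shell, and for every energy
  `|E - 2 d| ≤ κ √d` the window `[E - η, E + η]` contains between `c η d^(-1/2) n^d` and `c⁻¹ η d^(-1/2) n^d`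
  eigenvalues and the same holds for `Most` of the eigenfunctions of the window;
* for every finite orthonormal family in `ℓ²(ℤ^d)` whose members satisfy the eigenvalue equation at the interior
  sites of the box (eigenfunctions of `H` for instance) the restrictions to the box are spread and concentrated on
  the energy shell, up to `τ n^d` exceptions (`Most`). -/
theorem result :
    (∀ (d n : ℕ) [NeZero n] (A : Matrix (Torus d n) (Torus d n) ℂ), A.IsHermitian →
      ∃ (φ : Torus d n → Torus d n → ℂ) (e : Torus d n → ℝ), IsEigenbasis A φ e) ∧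
    (∀ (d n : ℕ) [NeZero n] (ω : (Fin d → ℤ) → ℝ) (A : Matrix (Torus d n) (Torus d n) ℂ),
      1 ≤ d → 2 * d ^ 2 ≤ n →
      (∀ x y : Torus d n, (∀ i, 0 < (x i).val ∧ (x i).val < n - 1) → A x y = periodic ω x y) →
      ((A - periodic ω).rank : ℝ) ≤ (n : ℝ) ^ d / d) ∧
    ∀ κ : ℝ, 0 < κ → ∃ c : ℝ, 0 < c ∧ ∀ α p m ε M : ℝ, 0 ≤ α → 1 ≤ p → m = α + 1 / p → 0 < ε →
      2 * m + 3 * ε ≤ 1 / 2 → 1 ≤ M →
    ∃ d₀ : ℕ, ∀ d : ℕ, d₀ ≤ d → ∀ (ν : Measure ℝ) [IsProbabilityMeasure ν],
      Integrable (fun t => |t| ^ p) ν → ∫ t, |t| ^ p ∂ν ≤ (M * (d : ℝ) ^ α) ^ p → ∫ t, t ∂ν = 0 →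
    ∀ (η τ : ℝ) (L : ℕ), η = (d : ℝ) ^ (-(1 / 2) + 2 * m + ε) → τ = (d : ℝ) ^ (-(ε / 64)) →
      L = ⌊(d : ℝ) ^ (1 / 2 - 2 * m - 2 * ε)⌋₊ →
    ∀ᵐ ω ∂(Measure.infinitePi fun _ : Fin d → ℤ => ν), ∀ᶠ n : ℕ in atTop, ∀ [NeZero n],
      (∀ A : Matrix (Torus d n) (Torus d n) ℂ, ((A - periodic ω).rank : ℝ) ≤ (n : ℝ) ^ d / d →
        ∀ (φ : Torus d n → Torus d n → ℂ) (e : Torus d n → ℝ), IsEigenbasis A φ e →
          Most φ e η τ L Finset.univ ((n : ℝ) ^ d) ∧
          ∀ E : ℝ, |E - 2 * d| ≤ κ * Real.sqrt d →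
            c * (η * (d : ℝ) ^ (-(1 / 2 : ℝ)) * (n : ℝ) ^ d) ≤ (window e E η).card ∧
            c * (window e E η).card ≤ η * (d : ℝ) ^ (-(1 / 2 : ℝ)) * (n : ℝ) ^ d ∧
            Most φ e η τ L (window e E η) (window e E η).card) ∧
      ∀ (J : Type) [Fintype J] (ψ : J → (Fin d → ℤ) → ℂ) (e : J → ℝ), LocalEigenSystem ω n ψ e →
        Most (fun j (x : Torus d n) => ψ j (site x)) e η τ L Finset.univ ((n : ℝ) ^ d) := by
  classical
  refine ⟨fun d n _ A hA => exists_basis A hA, fun d n _ ω A hd hn h => rank_le (periodic ω) A hd hn h,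
    fun κ hκ => ?_⟩
  obtain ⟨c, hc, hmain⟩ := main3 κ hκ
  refine ⟨c, hc, fun α p m ε M hα hp hm hε hmε hM => ?_⟩
  have hp0 : 0 < p := by linarith
  obtain ⟨d₀, hd₀1, hd₀⟩ := hmain α m ε M p hα hp
    (by rw [hm, add_sub_cancel_left, one_div, inv_mul_cancel₀ hp0.ne']) hε hmε hM
  refine ⟨d₀, fun d hd ν _ hint hP h0 η τ L hη hτ hL => ?_⟩
  have hd1 : 1 ≤ d := hd₀1.trans hd
  have hmain2 := hd₀ d hd ν hint h0 1 (by rw [abs_one, Real.one_rpow, one_mul]; exact hP)
  have e1 : (d : ℝ) ^ (-(1 / 2 - 2 * m - ε)) = η := by rw [hη]; congr 1; ring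
  rw [e1, ← hL, ← hτ] at hmain2
  filter_upwards [hmain2] with ω hω
  filter_upwards [hω, eventually_ge_atTop (2 * d ^ 2 + 2)] with n hn hn2
  intro _
  obtain ⟨hG, hGl⟩ := hn
  constructor
  · intro A hA φ e hφ
    obtain ⟨μ, hμ, hG⟩ := hG
    have hr : ((A - (2 * d : ℂ) • (1 : Matrix (Torus d n) (Torus d n) ℂ) -
        Hm hop (fun x => 1 * rs n ω x)).rank : ℝ) ≤ (n : ℝ) ^ d / d := by
      have : A - (2 * d : ℂ) • (1 : Matrix (Torus d n) (Torus d n) ℂ) - Hm hop (fun x => 1 * rs n ω x) =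
          A - periodic ω := by
        rw [per_eq]; abel
      rw [this]
      exact hA
    obtain ⟨h1, h2⟩ := hG (A - (2 * d : ℂ) • (1 : Matrix (Torus d n) (Torus d n) ℂ)) hr φ
      (fun j => e j - 2 * d) hφ.orthonormal (fun j x => by
        have h3 := hφ.eigen j x
        have h4 : ∀ y, (A - (2 * d : ℂ) • (1 : Matrix (Torus d n) (Torus d n) ℂ)) x y * φ j y =
            A x y * φ j y - (if x = y then (2 * d : ℂ) * φ j y else 0) := fun y => by
          rw [Matrix.sub_apply, Matrix.smul_apply, Matrix.one_apply, sub_mul, smul_eq_mul]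
          split_ifs <;> simp
        rw [Finset.sum_congr rfl fun y _ => h4 y, Finset.sum_sub_distrib, h3, Finset.sum_ite_eq]
        simp only [Finset.mem_univ, if_true]
        push_cast; ring)
    refine ⟨most_of hμ h1, fun E hE => ?_⟩
    obtain ⟨r1, r2, r3⟩ := h2 (E - 2 * d) hE
    have hw : Wd (fun j => e j - 2 * d) (E - 2 * d) η = window e E η := by
      unfold Wd window
      refine Finset.filter_congr fun j _ => ?_
      rw [sub_sub_sub_cancel_right]
    rw [hw] at r1 r2 r3
    exact ⟨r1, r2, most_of hμ r3⟩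
  · intro J _ ψ e hψ
    obtain ⟨μ, hμ, hG⟩ := hGl
    refine most_ofJ hμ (hG J (fun j (x : Torus d n) => ψ j (site x)) (fun j => e j - 2 * d)
      (Finset.univ.filter fun x : Torus d n => ¬ ∀ i, 0 < (x i).val ∧ (x i).val < n - 1) ?_
      (lBel d n J ψ hψ.norm hψ.orth) ?_)
    · refine (card_bd hd1 (by omega)).trans ?_
      have : 0 ≤ (n : ℝ) ^ d / d := by positivity
      have e2 : 2 * (n : ℝ) ^ d / d = 2 * ((n : ℝ) ^ d / d) := by ring
      rw [e2]; linarith
    · intro j x hx
      rw [Finset.mem_filter, not_and, not_not] at hx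
      have hx' := hx (Finset.mem_univ _)
      rw [sum_hm]
      have h5 := hψ.eigen j (site x) (fun i => by
        unfold site
        have := hx' i
        omega)
      unfold H at h5
      have h6 : ∀ i : Fin d, ψ j (site (x + Pi.single i 1)) + ψ j (site (x - Pi.single i 1)) =
          (ψ j (site x + Pi.single i 1) - ψ j (site x)) + (ψ j (site x - Pi.single i 1) - ψ j (site x)) +
            2 * ψ j (site x) := fun i => by
        rw [site_add (by omega) x i (hx' i).2, site_sub (by omega) x i (hx' i).1]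
        ring
      rw [Finset.sum_congr rfl fun i _ => h6 i, Finset.sum_add_distrib, Finset.sum_const, Finset.card_univ,
        Fintype.card_fin, nsmul_eq_mul]
      have h7 : ((1 * rs n ω x : ℝ) : ℂ) = (ω (site x) : ℂ) := by
        unfold rs site; push_cast; ring
      rw [h7]
      push_cast
      linear_combination h5

end Pool.Agent.Results.MP_d0f69c_mp.HighDimensionAllLaws
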