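import Pool.Agent.Q234.AH.Fin
import Pool.Agent.Q234.AH.BarProof

/-!
# No absolutely continuous spectrum for the Bernoulli Anderson model on horns

`D = d + 1 ≥ 2`. For a nondecreasing function `w` the horn of width `w` in `ℤ^D` is the set of all
`x` with `x 0 ≥ 0` and `|x i| ≤ w (x 0)` for all `i ≠ 0`. On `ℓ²` of the horn we consider the
operator `-(discrete Laplacian) + ω` with the Dirichlet condition outside the horn.

The law `ν` of the i.i.d. potential is any law of bounded support with at least two atoms, for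
example the fair `±1` law of the Bernoulli model; there is no assumption on the size of the
disorder and all energies are covered. There is `c > 0` such that if
`(2 w n + 1)^d * log (log n) ≤ c * log n` for infinitely many `n`, then almost surely the spectrum
is purely singular: every spectral measure is singular with respect to the Lebesgue measure.
-/

set_option autoImplicit false

open MeasureTheory Filter

namespace Pool.Agent.Results.MP_d0f69c_mp.Horns

/-- the lattice `ℤ^(d+1)` -/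
abbrev Lat (d : ℕ) : Type := Fin (d + 1) → ℤ

/-- the horn of width `w` in `ℤ^(d+1)` -/
def Horn (d : ℕ) (w : ℕ → ℕ) : Set (Lat d) :=
  {x | 0 ≤ x 0 ∧ ∀ i, i ≠ 0 → |x i| ≤ w (x 0).toNat}

/-- the Hilbert space `ℓ²(S)` -/
abbrev L2 {d : ℕ} (S : Set (Lat d)) : Type := lp (fun _ : S => ℂ) 2

/-- the bounded operators on `ℓ²(S)` -/
abbrev Op {d : ℕ} (S : Set (Lat d)) : Type := L2 S →L[ℂ] L2 S

/-- extension by zero of a function on `S` to the lattice -/
noncomputable def ext {d : ℕ} {S : Set (Lat d)} (u : S → ℂ) (x : Lat d) : ℂ :=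
  open Classical in if h : x ∈ S then u ⟨x, h⟩ else 0

/-- the discrete Laplacian -/
def lap {d : ℕ} (g : Lat d → ℂ) (x : Lat d) : ℂ :=
  ∑ i : Fin (d + 1), ((g (x + Pi.single i (1 : ℤ)) - g x) + (g (x - Pi.single i (1 : ℤ)) - g x))

/-- `H` is the operator `-(discrete Laplacian) + ω` on `ℓ²(S)` with the Dirichlet condition
outside `S` -/
def IsAnderson {d : ℕ} (S : Set (Lat d)) (ω : Lat d → ℝ) (H : Op S) : Prop :=
  ∀ (u : L2 S) (x : S), (H u) x = -lap (ext u) x + (ω x : ℂ) * ext u x

/-- all spectral measures of `H` are singular with respect to the Lebesgue measure -/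
def PurelySingular {F : Type*} [NormedAddCommGroup F] [InnerProductSpace ℂ F]
    (H : F →L[ℂ] F) : Prop :=
  ∀ (ψ : F) (μ : Measure ℝ), IsFiniteMeasure μ →
    (∀ z : ℂ, z.im ≠ 0 → (∫ x, ((x : ℂ) - z)⁻¹ ∂μ) =
      inner ℂ ψ (Ring.inverse (H - z • (1 : F →L[ℂ] F)) ψ)) →
    μ ⟂ₘ (volume : Measure ℝ)

/-- **Theorem.** -/
theorem result : ∀ d : ℕ, 1 ≤ d → ∀ (ν : Measure ℝ) [IsProbabilityMeasure ν] (K p q : ℝ),
    ν (Set.Icc (-K) K)ᶜ = 0 → p ≠ q → ν {p} ≠ 0 → ν {q} ≠ 0 →
    ∃ c : ℝ, 0 < c ∧ ∀ w : ℕ → ℕ, Monotone w →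
      (∃ᶠ n : ℕ in atTop, (2 * (w n : ℝ) + 1) ^ d * Real.log (Real.log n) ≤ c * Real.log n) →
      ∀ᵐ ω ∂(Measure.infinitePi fun _ : Lat d => ν),
        ∀ H : Op (Horn d w), IsAnderson (Horn d w) ω H → PurelySingular H := by
  intro d hd ν _ K p q hK hpq hp hq
  exact Pool.Agent.Q234.AH.fin_atoms Pool.Agent.Q234.AH.bar d hd ν K hK p q hpq hp hq

end Pool.Agent.Results.MP_d0f69c_mp.Horns
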